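import Mathlib
import Pool.Agent.Vri.Defs
import Pool.Agent.Vri.Mono

/-!
# `m(2s,s)` up to a logarithmic factor
-/

namespace Pool.Agent.Results.MP_270b52_co.TwiceWithinLog

open Pool.Agent.Vri

/-- For all `s ≥ 1`: the minimum `m(r,s)` is attained and
`m(r,s) ≤ ((6 log₂ s + 13)/s) · binom(2s,s)` for every `r ≥ 2s`, while
`m(2s,s) ≥ binom(2s,s)/(s+1)`. -/
theorem result (s : ℕ) (hs : 1 ≤ s) :
    (∀ r : ℕ, 2 * s ≤ r →
      (∃ F : Finset (Finset (Fin r)), Admissible r s F ∧ F.card = minEdges r s) ∧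
      (minEdges r s : ℝ) ≤ (6 * Real.logb 2 s + 13) / s * (2 * s).choose s) ∧
    ((2 * s).choose s : ℝ) / (s + 1) ≤ minEdges (2 * s) s := by
  refine ⟨fun r hr => ⟨exists_min' hs hr, ?_⟩, lower s hs⟩
  have h : (minEdges r s : ℝ) ≤ minEdges (2 * s) s := by exact_mod_cast minEdges_mono hs hr
  exact h.trans (upper s hs)

end Pool.Agent.Results.MP_270b52_co.TwiceWithinLog
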